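import Mathlib
import Pool.Agent.H921PC.PCurv3

set_option autoImplicit false

namespace Pool.Agent.Results.MP_5e5ff1_ag.ThricePunctured

open Polynomial H921PC NumberField

/-- Systems `f' = (B/t + C/(t-1)) f`, `B = b/n`, `C = c/n`, of every rank over every number field.
Let the eigenvalues of `b`, `c`, `b + c` be integers `β j`, `γ j`, `δ j` (so that the exponents are
rational), with `β j ≥ 0` and `γ j ≥ 0` whenever `n` divides them. If for one residue class `ℓ`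
prime to `n` the sum of all `(-ℓ β j) mod n` and all `(-ℓ γ j) mod n` is smaller than the sum of
all `(-ℓ δ j) mod n`, then the `p`-curvature modulo `P` is nonzero for every maximal ideal `P` of
large residue characteristic `p` with `p ℓ ≡ 1 (mod n)`, and it is nonzero for infinitely many
maximal ideals. -/
theorem result : ∀ (K : Type) [Field K] [NumberField K] (r n : ℕ), 0 < n →
    ∀ (b c : Matrix (Fin r) (Fin r) (𝓞 K)) (β γ δ : Fin r → ℤ) (ℓ : ℤ),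
    IntEigenvalues b β → IntEigenvalues c γ → IntEigenvalues (b + c) δ →
    (∀ j, (n : ℤ) ∣ β j → 0 ≤ β j) → (∀ j, (n : ℤ) ∣ γ j → 0 ≤ γ j) →
    IsCoprime ℓ (n : ℤ) →
    ∑ j, (-(ℓ * β j)) % (n : ℤ) + ∑ j, (-(ℓ * γ j)) % (n : ℤ) <
      ∑ j, (-(ℓ * δ j)) % (n : ℤ) →
    (∃ N : ℕ, ∀ P : Ideal (𝓞 K), P.IsMaximal → N < ringChar (𝓞 K ⧸ P) →
      (n : ℤ) ∣ (ringChar (𝓞 K ⧸ P) : ℤ) * ℓ - 1 → ¬ PCurvZero (n : 𝓞 K ⧸ P)
      (b.map (Ideal.Quotient.mk P)) (c.map (Ideal.Quotient.mk P))) ∧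
    {P : Ideal (𝓞 K) | P.IsMaximal ∧ ¬ PCurvZero (n : 𝓞 K ⧸ P)
      (b.map (Ideal.Quotient.mk P)) (c.map (Ideal.Quotient.mk P))}.Infinite := by
  intro K _ _ r n hn b c β γ δ ℓ hb hc hd hbn hcn hℓ hlt
  exact ⟨⟨_, fun P hP hN hp => pcurv_ne hn hb hc hd hbn hcn hlt P hP hN hp⟩,
    pcurv_infinite hn hb hc hd hbn hcn hℓ hlt⟩

end Pool.Agent.Results.MP_5e5ff1_ag.ThricePunctured
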